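import Mathlib

namespace Pool.Agent.Results.MP_c2298c_an.NotContinuous

open Set Filter Topology Real

/-- `ℓ¹`, that is `L¹` of the counting measure on `ℕ` -/
noncomputable abbrev E := lp (fun _ : ℕ => ℝ) 1

lemma summ (x : E) : Summable fun i => ‖x i‖ := by
  simpa using x.2.summable (by simp)

lemma norm_eq (x : E) : ‖x‖ = ∑' i, ‖x i‖ := by
  simpa using lp.norm_eq_tsum_rpow (by simp) x

lemma summ_mul {r : ℕ → ℝ} (hr : ∀ i, ‖r i‖ ≤ 1) (x : E) : Summable fun i => ‖r i * x i‖ :=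
  (summ x).of_nonneg_of_le (fun _ => norm_nonneg _) fun i => by
    rw [norm_mul]
    exact mul_le_of_le_one_left (norm_nonneg _) (hr i)

noncomputable def mul₀ (r : ℕ → ℝ) (hr : ∀ i, ‖r i‖ ≤ 1) : E →ₗ[ℝ] E where
  toFun x := ⟨fun i => r i * x i, memℓp_gen (by simpa using summ_mul hr x)⟩
  map_add' x y := by
    ext i
    simp [mul_add]
  map_smul' c x := by
    ext i
    simp [mul_left_comm]

lemma mul₀_le (r : ℕ → ℝ) (hr : ∀ i, ‖r i‖ ≤ 1) (x : E) : ‖mul₀ r hr x‖ ≤ 1 * ‖x‖ := by
  rw [one_mul, norm_eq, norm_eq x]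
  refine (summ _).tsum_le_tsum (fun i => ?_) (summ x)
  exact (norm_mul_le _ _).trans (mul_le_of_le_one_left (norm_nonneg _) (hr i))

noncomputable def mul (r : ℕ → ℝ) (hr : ∀ i, ‖r i‖ ≤ 1) : E →L[ℝ] E :=
  (mul₀ r hr).mkContinuous 1 (mul₀_le r hr)

@[simp] lemma mul_app (r : ℕ → ℝ) (hr : ∀ i, ‖r i‖ ≤ 1) (x : E) (i : ℕ) :
    mul r hr x i = r i * x i := rfl

lemma norm_mul_le_one (r : ℕ → ℝ) (hr : ∀ i, ‖r i‖ ≤ 1) : ‖mul r hr‖ ≤ 1 :=
  LinearMap.mkContinuous_norm_le _ zero_le_one _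

lemma tend {α : Type} {l : Filter α} {f : α → E} {g : E} {b : ℕ → ℝ} (hb : Summable b)
    (h : ∀ k, Tendsto (fun t => f t k) l (𝓝 (g k))) (h' : ∀ᶠ t in l, ∀ k, ‖f t k‖ ≤ b k) :
    Tendsto f l (𝓝 g) := by
  rw [tendsto_iff_norm_sub_tendsto_zero]
  simp only [norm_eq]
  simpa using tendsto_tsum_of_dominated_convergence (f := fun t k => ‖(f t - g) k‖) (g := fun _ => 0)
    (hb.add (summ g)) (fun k => by simpa using tendsto_iff_norm_sub_tendsto_zero.1 (h k))
    (h'.mono fun t ht k => by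
      rw [norm_norm, lp.coeFn_sub, Pi.sub_apply]
      exact (norm_sub_le _ _).trans (by gcongr; exact ht k))

noncomputable def ev (k : ℕ) : E →L[ℝ] ℝ :=
  LinearMap.mkContinuous ⟨⟨fun x => x k, fun _ _ => rfl⟩, fun _ _ => rfl⟩ 1 fun x => by
    simpa using lp.norm_apply_le_norm one_ne_zero x k

lemma compact (r : ℕ → ℝ) (hr : ∀ i, ‖r i‖ ≤ 1) (hs : Summable r) : IsCompactOperator (mul r hr) := by
  let P : ℕ → E →L[ℝ] E := fun k => r k • (ev k).smulRight (lp.single 1 k 1)
  have hP : Summable P := by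
    refine Summable.of_norm_bounded hs.abs fun k => ?_
    have : ‖ev k‖ ≤ 1 := LinearMap.mkContinuous_norm_le _ zero_le_one _
    simpa [P, norm_smul, lp.norm_single] using mul_le_of_le_one_right (abs_nonneg _) this
  have e : ∑' k, P k = mul r hr := by
    ext x j
    refine (((ev j).comp (ContinuousLinearMap.apply ℝ E x)).hasSum hP.hasSum).unique ?_
    convert hasSum_single j fun i hi => ?_ using 1 <;> simp [P, ev, lp.single_apply]
    simp [Pi.single_eq_of_ne hi.symm]
  refine isCompactOperator_of_tendsto (e ▸ hP.hasSum) (Eventually.of_forall fun s => ?_)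
  induction s using Finset.induction_on with
  | empty => simpa using isCompactOperator_zero
  | insert i s hi ih =>
    rw [Finset.sum_insert hi]
    exact IsCompactOperator.add (IsCompactOperator.smul ((isCompactOperator_of_locallyCompactSpace_dom
      (ev i)).clm_comp (ContinuousLinearMap.toSpanSingleton ℝ (lp.single 1 i 1))) _) ih

noncomputable def w (j : ℕ) (t : ℝ) (k : ℕ) : ℝ :=
  (1 / 2) ^ j * ((k * |t|) ^ j / j.factorial * exp (-(k * |t|)))

lemma w_nonneg (j : ℕ) (t : ℝ) (k : ℕ) : 0 ≤ w j t k := by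
  unfold w
  positivity

lemma w_le (j : ℕ) (t : ℝ) (k : ℕ) : ‖w j t k‖ ≤ 1 := by
  rw [norm_of_nonneg (w_nonneg j t k), w, exp_neg, ← div_eq_mul_inv]
  exact mul_le_one₀ (pow_le_one₀ (by norm_num) (by norm_num)) (by positivity)
    (div_le_one_of_le₀ (pow_div_factorial_le_exp _ (by positivity) j) (exp_pos _).le)

noncomputable def W (j : ℕ) (t : ℝ) : E →L[ℝ] E := mul (w j t) (w_le j t)

noncomputable def G (c : ℝ) : E →ₗ.[ℝ] E where
  domain :=
    { carrier := {x | Memℓp (fun k : ℕ => (k : ℝ) * x k) 1}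
      add_mem' := fun hx hy => by simpa [mul_add, Pi.add_def] using hx.add hy
      zero_mem' := by simpa [Pi.zero_def] using (zero_memℓp (E := fun _ : ℕ => ℝ) (p := 1))
      smul_mem' := fun c x hx => by simpa [mul_left_comm, Pi.smul_def] using hx.const_smul c }
  toFun :=
    { toFun := fun x => c • ⟨fun k : ℕ => (k : ℝ) * x.1 k, x.2⟩
      map_add' := fun x y => by
        ext i
        simp [mul_add]
      map_smul' := fun c x => by
        ext i
        simp [mul_left_comm] }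

lemma G_apply (c : ℝ) (x : (G c).domain) (k : ℕ) : G c x k = c * (k * x.1 k) := rfl

lemma mem_graph {c : ℝ} (hc : c ≠ 0) (x y : E) :
    (x, y) ∈ (G c).graph ↔ ∀ k, y k = c * (k * x k) := by
  rw [LinearPMap.mem_graph_iff]
  constructor
  · rintro ⟨z, rfl, rfl⟩ k
    rfl
  · intro h
    refine ⟨⟨x, ?_⟩, rfl, lp.ext (funext fun k => (h k).symm)⟩
    have := y.2.const_smul c⁻¹
    show Memℓp _ _
    convert this using 1
    funext k
    simp [h, hc]

section

variable {X : Type} [NormedAddCommGroup X] [NormedSpace ℝ X] (P : Set X)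

/-- `U` is a `C₀`-semigroup of contractions preserving the cone `P` -/
def Substochastic (U : ℝ → X →L[ℝ] X) : Prop :=
  U 0 = 1 ∧ (∀ s ≥ 0, ∀ t ≥ 0, U (s + t) = U s * U t) ∧
    (∀ x, ContinuousOn (fun t => U t x) (Ici 0)) ∧ ∀ t ≥ 0, ‖U t‖ ≤ 1 ∧ ∀ x ∈ P, U t x ∈ P

/-- `T` is the (densely defined) generator of `U` -/
def Generator (U : ℝ → X →L[ℝ] X) (T : X →ₗ.[ℝ] X) : Prop :=
  (∀ x y, (x, y) ∈ T.graph ↔ HasDerivWithinAt (fun t => U t x) y (Ici 0) 0) ∧
    Dense (T.domain : Set X)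

/-- `B` is a positive `T`-bounded operator on the domain of `T` -/
def PosBounded (T B : X →ₗ.[ℝ] X) : Prop :=
  B.domain = T.domain ∧
    (∃ a b : ℝ, ∀ x y z, (x, y) ∈ T.graph → (x, z) ∈ B.graph → ‖z‖ ≤ a * ‖x‖ + b * ‖y‖) ∧
    ∀ x z, (x, z) ∈ B.graph → x ∈ P → z ∈ P

/-- `l - T` has a bounded inverse `R` and `B R` has norm below one -/
def Small (T B : X →ₗ.[ℝ] X) (l : ℝ) : Prop :=
  ∃ R K : X →L[ℝ] X, (∀ x, (R x, l • R x - x) ∈ T.graph) ∧
    (∀ x y, (x, y) ∈ T.graph → R (l • x - y) = x) ∧ (∀ x, (R x, K x) ∈ B.graph) ∧ ‖K‖ < 1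

/-- the Dyson-Phillips recursion -/
def Dyson (U : ℕ → ℝ → X →L[ℝ] X) (B : X →ₗ.[ℝ] X) : Prop :=
  ∀ j, ∀ t ≥ 0, ∀ x ∈ B.domain, ∃ g : ℝ → X, (∀ s ∈ Icc 0 t, (U 0 s x, g s) ∈ B.graph) ∧
    IntervalIntegrable (fun s => U j (t - s) (g s)) MeasureTheory.volume 0 t ∧
    U (j + 1) t x = ∫ s in 0..t, U j (t - s) (g s)

/-- a counterexample on the space `X` with positive cone `P` -/
def Bad : Prop := ∃ (U : ℕ → ℝ → X →L[ℝ] X) (T B : X →ₗ.[ℝ] X) (n : ℕ),
  Substochastic P (U 0) ∧ Generator (U 0) T ∧ PosBounded P T B ∧ (∀ l > 0, Small T B l) ∧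
    Dyson U B ∧ (∀ t ≥ 0, IsCompactOperator (U n t)) ∧ ¬ ContinuousOn (U (2 * n + 2)) (Ici 0)

end

theorem result : Bad {x : E | ∀ k, 0 ≤ x k} := by
  have hW (j t) (x : E) (k) : W j t x k = w j t k * x k := rfl
  have g1 := mem_graph (c := -1) (by norm_num)
  have g2 := mem_graph (c := 1 / 2) (by norm_num)
  refine ⟨W, G (-1), G (1 / 2), 1, ⟨?_, fun s hs t ht => ?_, fun x => ?_,
    fun t _ => ⟨norm_mul_le_one _ _, fun x hx k => mul_nonneg (w_nonneg _ _ _) (hx k)⟩⟩,
    ⟨fun x y => ?_, ?_⟩, ⟨rfl, ⟨0, 1 / 2, fun x y z h1 h2 => ?_⟩, fun x z h hx k => ?_⟩,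
    fun l hl => ?_, fun j t ht x hx => ?_, fun t ht => compact _ _ ?_, fun h => ?_⟩
  · ext x k
    simp [hW, w]
  · ext x k
    simp [hW, w, abs_of_nonneg, hs, ht, add_nonneg, mul_add, add_comm, exp_add, mul_assoc]
  · refine Continuous.continuousOn (continuous_iff_continuousAt.2 fun t => tend (summ x)
      (fun k => Continuous.tendsto (by simp only [hW, w]; fun_prop) t) (.of_forall fun s k => ?_))
    exact (norm_mul_le _ _).trans (mul_le_of_le_one_left (norm_nonneg _) (w_le _ _ _))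
  · have d (k : ℕ) : HasDerivWithinAt (fun t => W 0 t x k) (-1 * (k * x k)) (Ici 0) 0 := by
      refine (((hasDerivAt_id' (0 : ℝ)).const_mul (k : ℝ)).neg.exp.mul_const
        (x k)).hasDerivWithinAt.congr_deriv (by simp) |>.congr (fun t ht => ?_) (by simp [hW, w])
      simp [hW, w, abs_of_nonneg (mem_Ici.1 ht)]
    rw [g1]
    refine ⟨fun h => ?_, fun h k => (uniqueDiffWithinAt_Ici 0).eq_deriv _
      ((ev k).hasFDerivAt.comp_hasDerivWithinAt 0 h) (d k)⟩
    simp only [hasDerivWithinAt_iff_tendsto_slope] at d ⊢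
    refine tend (summ y) (fun k => h k ▸ d k) (eventually_nhdsWithin_of_forall fun t ht k => ?_)
    have ht : 0 < t := lt_of_le_of_ne ht.1 (Ne.symm ht.2)
    have e : slope (fun t => W 0 t x) 0 t k = -((1 - exp (-(k * t))) / t * x k) := by
      simp [slope, hW, w, abs_of_pos ht]
      field_simp
      ring
    rw [e, h, neg_one_mul, norm_neg, norm_neg, norm_mul, norm_mul, Real.norm_natCast,
      norm_of_nonneg (div_nonneg (sub_nonneg.2 (exp_le_one_iff.2 (neg_nonpos.2 (by positivity)))) ht.le)]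
    gcongr
    rw [div_le_iff₀ ht]
    linarith [add_one_le_exp (-(k * t))]
  · intro x
    refine mem_closure_of_tendsto (lp.hasSum_single (p := 1) (by simp) x) (.of_forall fun s =>
      Submodule.sum_mem _ fun i _ => memℓp_gen ?_)
    refine (hasSum_single i fun k hk => ?_).summable
    simp [lp.single_apply, Pi.single_eq_of_ne hk]
  · have : z = (-1 / 2 : ℝ) • y := by
      ext k
      simp [(g1 _ _).1 h1 k, (g2 _ _).1 h2 k]
      ring
    rw [this, norm_smul]
    norm_num
  · rw [(g2 _ _).1 h k]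
    have := hx k
    positivity
  · have b1 (k : ℕ) : ‖l / (l + k)‖ ≤ 1 := by
      rw [norm_of_nonneg (by positivity), div_le_one (by positivity)]
      simp
    have b2 (k : ℕ) : ‖k / (l + k)‖ ≤ 1 := by
      rw [norm_of_nonneg (by positivity), div_le_one (by positivity)]
      linarith
    refine ⟨l⁻¹ • mul _ b1, (1 / 2 : ℝ) • mul _ b2, fun x => (g1 _ _).2 fun k => ?_,
      fun x y h => ?_, fun x => (g2 _ _).2 fun k => ?_, ?_⟩
    · simp
      field_simp
      ring
    · ext k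
      simp [(g1 _ _).1 h k]
      field_simp
    · simp
      field_simp
    · rw [norm_smul]
      have := norm_mul_le_one _ b2
      norm_num
      linarith
  · let y : E := G (1 / 2) ⟨x, hx⟩
    have hy (k) : y k = 1 / 2 * (k * x k) := rfl
    let v : E := mul (fun k => w j t k) (w_le j t) y
    have e (s) (hs : s ∈ uIcc 0 t) : W j (t - s) (W 0 s y) = ((t - s) / t) ^ j • v := by
      rw [uIcc_of_le ht] at hs
      ext k
      rcases ht.eq_or_lt with rfl | ht'
      · obtain rfl : s = 0 := le_antisymm hs.2 hs.1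
        cases j <;> simp [v, hW, w]
      · simp only [v, hW, w, lp.coeFn_smul, Pi.smul_apply, mul_app, abs_of_nonneg hs.1,
          abs_of_nonneg (sub_nonneg.2 hs.2), abs_of_pos ht', smul_eq_mul, mul_pow, div_pow]
        rw [show -(k * t) = -(k * (t - s)) + -(k * s) by ring, exp_add]
        simp
        field_simp
    refine ⟨fun s => W 0 s y, fun s _ => (g2 _ _).2 fun k => by simp only [hW, hy]; ring, ?_, ?_⟩
    · exact (ContinuousOn.congr (by fun_prop) e).intervalIntegrable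
    · rw [intervalIntegral.integral_congr e, intervalIntegral.integral_smul_const]
      simp only [div_pow]
      rw [intervalIntegral.integral_div, intervalIntegral.integral_comp_sub_left (fun s => s ^ j),
        integral_pow]
      ext k
      rcases ht.eq_or_lt with rfl | ht'
      · simp [hW, w]
      · simp only [v, hW, w, lp.coeFn_smul, Pi.smul_apply, mul_app, abs_of_pos ht', smul_eq_mul, hy,
          Nat.factorial_succ]
        simp
        field_simp
        ring
  · rcases ht.eq_or_lt with rfl | ht'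
    · exact summable_zero.congr fun k => by simp [w]
    · refine ((summable_pow_mul_exp_neg_nat_mul 1 ht').mul_left (t / 2)).congr fun k => ?_
      simp [w, abs_of_pos ht', mul_comm]
      ring
  · have h0 : W (2 * 1 + 2) 0 = 0 := by
      ext x k
      simp [hW, w]
    have h1 := ((h 0 self_mem_Ici).tendsto.comp (tendsto_nhdsWithin_iff.2
      ⟨tendsto_one_div_add_atTop_nhds_zero_nat, .of_forall fun k => mem_Ici.2 (by positivity)⟩)).norm
    rw [h0, norm_zero] at h1
    refine (ge_of_tendsto' h1 fun k => ?_).not_gt (w_nonneg 4 1 1 |>.lt_of_ne ?_)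
    · have h2 := (W 4 (1 / ((k : ℝ) + 1))).le_opNorm (lp.single 1 (k + 1) 1)
      have h3 := lp.norm_apply_le_norm one_ne_zero (W 4 (1 / ((k : ℝ) + 1)) (lp.single 1 (k + 1) 1))
        (k + 1)
      rw [hW, lp.single_apply_self, mul_one, norm_of_nonneg (w_nonneg _ _ _)] at h3
      rw [lp.norm_single (by simp), norm_one, mul_one] at h2
      refine le_trans (le_of_eq ?_) (h3.trans h2)
      have : ((k + 1 : ℕ) : ℝ) * |1 / ((k : ℝ) + 1)| = 1 := by
        rw [abs_of_pos (by positivity)]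
        push_cast
        field_simp
      simp only [w, this]
      simp
    · unfold w
      positivity

end Pool.Agent.Results.MP_c2298c_an.NotContinuous
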